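import Mathlib

/-!
Abstract form of the argument: on a compact space with a minimal equivalence relation that has
local sections, two cocycles with the same nonnegativity set cannot be such that one is bounded and
the other one is unbounded.
-/

open Filter Topology

namespace Q88.Tri

set_option linter.unusedSectionVars false

section Abstract

variable {X : Type*} [TopologicalSpace X]

/-- Local sections adapted to a cocycle. -/
def HasSections (R : X → X → Prop) (c : X → X → ℝ) : Prop :=
  ∀ z x, R z x → ∃ s : X → X, s x = z ∧ ContinuousAt s x ∧ (∀ᶠ x' in 𝓝 x, R (s x') x') ∧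
    ContinuousAt (fun x' => c (s x') x') x

variable {R : X → X → Prop} {c c' : X → X → ℝ}

theorem cocycle_self (hR : Equivalence R)
    (hc : ∀ x y z, R x y → R y z → c x y + c y z = c x z) (x : X) : c x x = 0 := by
  have := hc x x x (hR.refl x) (hR.refl x)
  linarith

theorem cocycle_symm (hR : Equivalence R)
    (hc : ∀ x y z, R x y → R y z → c x y + c y z = c x z) {x y : X} (h : R x y) :
    c y x = - c x y := by
  have := hc x y x h (hR.symm h)
  rw [cocycle_self hR hc] at this
  linarith

/-- supremum of a bounded cocycle along an orbit. -/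
noncomputable def supOrbit (R : X → X → Prop) (c : X → X → ℝ) (x : X) : ℝ :=
  sSup {t | ∃ y, R y x ∧ t = c y x}

theorem le_supOrbit {K : ℝ} (hK : ∀ x y, R x y → |c x y| ≤ K) {x y : X} (h : R y x) :
    c y x ≤ supOrbit R c x := by
  apply le_csSup
  · refine ⟨K, ?_⟩
    rintro t ⟨y, hy, rfl⟩
    exact (abs_le.1 (hK y x hy)).2
  · exact ⟨y, h, rfl⟩

theorem supOrbit_le (hR : Equivalence R) {x : X} {M : ℝ} (h : ∀ y, R y x → c y x ≤ M) :
    supOrbit R c x ≤ M := by
  apply csSup_le
  · exact ⟨c x x, x, hR.refl x, rfl⟩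
  · rintro t ⟨y, hy, rfl⟩
    exact h y hy

theorem exists_lt_of_lt_supOrbit (hR : Equivalence R) {x : X} {M : ℝ} (h : M < supOrbit R c x) :
    ∃ y, R y x ∧ M < c y x := by
  by_contra hcon
  push Not at hcon
  exact absurd (supOrbit_le hR hcon) (not_le.2 h)

theorem supOrbit_eq (hR : Equivalence R) {K : ℝ} (hK : ∀ x y, R x y → |c x y| ≤ K)
    (hc : ∀ x y z, R x y → R y z → c x y + c y z = c x z) {x z : X} (h : R x z) :
    supOrbit R c z = supOrbit R c x + c x z := by
  apply le_antisymm
  · apply supOrbit_le hR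
    intro y hy
    have h1 : R y x := hR.trans hy (hR.symm h)
    have := hc y x z h1 h
    have := le_supOrbit hK h1
    linarith
  · have : supOrbit R c x ≤ supOrbit R c z - c x z := by
      apply supOrbit_le hR
      intro y hy
      have h1 : R y z := hR.trans hy h
      have := hc y x z hy h
      have := le_supOrbit hK h1
      linarith
    linarith

theorem lsc_supOrbit (hR : Equivalence R) {K : ℝ} (hK : ∀ x y, R x y → |c x y| ≤ K)
    (hs : HasSections R c) : LowerSemicontinuous (supOrbit R c) := by
  intro x a ha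
  obtain ⟨y, hy, hy'⟩ := exists_lt_of_lt_supOrbit hR ha
  obtain ⟨s, hsx, -, hsR, hsc⟩ := hs y x hy
  have h1 : ∀ᶠ x' in 𝓝 x, a < c (s x') x' := by
    apply hsc.eventually_const_lt
    simpa [hsx] using hy'
  filter_upwards [h1, hsR] with x' h1 h2
  exact h1.trans_le (le_supOrbit hK h2)

/-- A bounded continuous cocycle on a minimal relation is a continuous coboundary. -/
theorem exists_transfer (hR : Equivalence R) (hmin : ∀ x, Dense {z | R z x})
    {K : ℝ} (hK : ∀ x y, R x y → |c x y| ≤ K)
    (hc : ∀ x y z, R x y → R y z → c x y + c y z = c x z)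
    (hs : HasSections R c) :
    ∃ b : X → ℝ, Continuous b ∧ ∀ x y, R x y → c x y = b y - b x := by
  set b := supOrbit R c with hb
  set b' := supOrbit R (fun x y => - c x y) with hb'
  have hK' : ∀ x y, R x y → |(fun x y => - c x y) x y| ≤ K := by
    intro x y h
    simpa using hK x y h
  have hc' : ∀ x y z, R x y → R y z →
      (fun x y => - c x y) x y + (fun x y => - c x y) y z = (fun x y => - c x y) x z := by
    intro x y z h1 h2
    have := hc x y z h1 h2
    simp only
    linarith
  have hs' : HasSections R (fun x y => - c x y) := by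
    intro z x h
    obtain ⟨s, h1, h2, h3, h4⟩ := hs z x h
    exact ⟨s, h1, h2, h3, h4.neg⟩
  have hl : LowerSemicontinuous b := lsc_supOrbit hR hK hs
  have hl' : LowerSemicontinuous b' := lsc_supOrbit hR hK' hs'
  have hinv : ∀ x z, R x z → b z + b' z = b x + b' x := by
    intro x z h
    have h1 := supOrbit_eq hR hK hc h
    have h2 := supOrbit_eq hR hK' hc' h
    simp only [hb, hb']
    rw [h1, h2]
    ring
  have hlsc : LowerSemicontinuous (fun x => b x + b' x) := hl.add hl'
  have hconst : ∀ x y, b x + b' x ≤ b y + b' y := by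
    intro x y
    by_contra hcon
    push Not at hcon
    have hopen : IsOpen {z | b y + b' y < b z + b' z} := by
      have := hlsc.isOpen_preimage (b y + b' y)
      exact this
    obtain ⟨z, hz1, hz2⟩ := (hmin y).inter_open_nonempty _ hopen ⟨x, hcon⟩
    have h1 : b y + b' y < b z + b' z := hz1
    have h2 := hinv z y hz2
    linarith
  have hconst' : ∀ x y, b x + b' x = b y + b' y := fun x y =>
    le_antisymm (hconst x y) (hconst y x)
  refine ⟨b, ?_, ?_⟩
  · rw [continuous_iff_continuousAt]
    intro x
    have hu : UpperSemicontinuous b := by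
      have : b = fun y => (b x + b' x) - b' y := by
        funext y
        have := hconst' x y
        linarith
      rw [this]
      intro y a ha
      have : (b x + b' x) - a < b' y := by
        simp only at ha
        linarith
      filter_upwards [hl' y _ this] with z hz
      linarith
    exact continuousAt_iff_lower_upperSemicontinuousAt.2 ⟨hl x, hu x⟩
  · intro x y h
    have := supOrbit_eq hR hK hc h
    simp only [hb]
    linarith

/-- The abstract form of the main result. -/
theorem bounded_of_same_sign [CompactSpace X] (hR : Equivalence R) (hmin : ∀ x, Dense {z | R z x})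
    {K : ℝ} (hK : ∀ x y, R x y → |c' x y| ≤ K)
    (hc : ∀ x y z, R x y → R y z → c x y + c y z = c x z)
    (hc' : ∀ x y z, R x y → R y z → c' x y + c' y z = c' x z)
    (hs : HasSections R c) (hs' : HasSections R c')
    (hsign : ∀ x y, R x y → (0 ≤ c x y ↔ 0 ≤ c' x y)) :
    ∃ M : ℝ, ∀ x y, R x y → |c x y| ≤ M := by
  obtain ⟨b, hb, hbc⟩ := exists_transfer hR hmin hK hc' hs'
  by_contra hcon
  push Not at hcon
  have hunb : ∀ n : ℕ, ∃ p : X × X, R p.1 p.2 ∧ (n : ℝ) < c p.1 p.2 := by
    intro n
    obtain ⟨x, y, hxy, h⟩ := hcon n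
    rcases lt_abs.1 h with h | h
    · exact ⟨(x, y), hxy, h⟩
    · exact ⟨(y, x), hR.symm hxy, by rw [cocycle_symm hR hc hxy]; exact h⟩
  choose p hpR hpc using hunb
  -- the transfer function is not constant
  have hnc : ∃ u v, b u < b v := by
    by_contra hall
    push Not at hall
    have h0 : ∀ x y, R x y → 0 ≤ c x y := by
      intro x y h
      rw [hsign x y h, hbc x y h]
      have := hall y x
      linarith
    have h1 := h0 _ _ (hpR 0)
    have h2 := h0 _ _ (hR.symm (hpR 0))
    have h3 := hpc 0
    rw [cocycle_symm hR hc (hpR 0)] at h2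
    simp at h3
    linarith
  obtain ⟨u, v, huv⟩ := hnc
  -- limit points
  let F : Ultrafilter ℕ := hyperfilter ℕ
  have hF : (F : Filter ℕ) ≤ atTop := by
    rw [← Nat.cofinite_eq_atTop]; exact hyperfilter_le_cofinite
  obtain ⟨x, -, hx⟩ := (isCompact_univ (X := X)).ultrafilter_le_nhds (F.map fun n => (p n).1)
    (by simp)
  obtain ⟨y, -, hy⟩ := (isCompact_univ (X := X)).ultrafilter_le_nhds (F.map fun n => (p n).2)
    (by simp)
  have hx' : Tendsto (fun n => (p n).1) F (𝓝 x) := hx
  have hy' : Tendsto (fun n => (p n).2) F (𝓝 y) := hy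
  -- points of the orbits of `x`, `y` with prescribed sizes of `b`
  obtain ⟨z, hz1, hz2⟩ := (hmin x).inter_open_nonempty {t | (b u + b v) / 2 < b t}
    (isOpen_lt continuous_const hb) ⟨v, by simp only [Set.mem_ofPred_eq]; linarith⟩
  obtain ⟨w, hw1, hw2⟩ := (hmin y).inter_open_nonempty {t | b t < (b u + b v) / 2}
    (isOpen_lt hb continuous_const) ⟨u, by simp only [Set.mem_ofPred_eq]; linarith⟩
  have hzw : b w < b z := by
    simp only [Set.mem_ofPred_eq] at hz1 hw1
    linarith
  obtain ⟨s, hsx, hscont, hsR, hsc⟩ := hs z x hz2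
  obtain ⟨t, htx, htcont, htR, htc⟩ := hs w y hw2
  have e1 : Tendsto (fun n => c (s (p n).1) (p n).1) F (𝓝 (c z x)) := by
    have := hsc.tendsto.comp hx'
    simpa [hsx, Function.comp_def] using this
  have e2 : Tendsto (fun n => c (t (p n).2) (p n).2) F (𝓝 (c w y)) := by
    have := htc.tendsto.comp hy'
    simpa [htx, Function.comp_def] using this
  have e3 : Tendsto (fun n => b (t (p n).2) - b (s (p n).1)) F (𝓝 (b w - b z)) := by
    have h1 : Tendsto (fun n => b (t (p n).2)) F (𝓝 (b w)) := by
      have := (hb.continuousAt.comp (f := t) htcont).tendsto.comp hy'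
      simpa [htx, Function.comp_def] using this
    have h2 : Tendsto (fun n => b (s (p n).1)) F (𝓝 (b z)) := by
      have := (hb.continuousAt.comp (f := s) hscont).tendsto.comp hx'
      simpa [hsx, Function.comp_def] using this
    exact h1.sub h2
  have a1 : ∀ᶠ n in (F : Filter ℕ), c z x - 1 < c (s (p n).1) (p n).1 :=
    e1.eventually_const_lt (by linarith)
  have a2 : ∀ᶠ n in (F : Filter ℕ), c (t (p n).2) (p n).2 < c w y + 1 :=
    e2.eventually_lt_const (by linarith)
  have a3 : ∀ᶠ n in (F : Filter ℕ), b (t (p n).2) - b (s (p n).1) < 0 :=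
    e3.eventually_lt_const (by linarith)
  have a4 : ∀ᶠ n in (F : Filter ℕ), R (s (p n).1) (p n).1 := hx'.eventually hsR
  have a5 : ∀ᶠ n in (F : Filter ℕ), R (t (p n).2) (p n).2 := hy'.eventually htR
  have a6 : ∀ᶠ n : ℕ in (F : Filter ℕ), (c w y + 1) - (c z x - 1) ≤ (n : ℝ) :=
    hF (tendsto_natCast_atTop_atTop.eventually_ge_atTop _)
  obtain ⟨n, h1, h2, h3, h4, h5, h6⟩ :=
    (a1.and (a2.and (a3.and (a4.and (a5.and a6))))).exists
  have h7 := hpc n
  have h8 := hc _ _ _ (hpR n) (hR.symm h5)
  have h9 := cocycle_symm hR hc h5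
  have h10 := hR.trans (hpR n) (hR.symm h5)
  have h11 := hc _ _ _ h4 h10
  have h12 : 0 ≤ c (s (p n).1) (t (p n).2) := by linarith
  have h13 : R (s (p n).1) (t (p n).2) := hR.trans h4 h10
  rw [hsign _ _ h13, hbc _ _ h13] at h12
  linarith

end Abstract

end Q88.Tri
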