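import Pool.Agent.Q88.TAF.Units
import Pool.Agent.Q88.TAF.Abstract

/-!
The character space of the masa, the AF relation and its topology.
-/

namespace Q88.Tri

open Finset WeakDual Filter Topology

variable {A : Type*} [CStarAlgebra A]

namespace UHF

variable (U : UHF A)

instance : FunLike U.X U.D ℂ := inferInstanceAs (FunLike (U.D →ₐ[ℂ] ℂ) U.D ℂ)

instance : AlgHomClass U.X ℂ U.D ℂ := inferInstanceAs (AlgHomClass (U.D →ₐ[ℂ] ℂ) ℂ U.D ℂ)

theorem ev_eq (x : U.X) (d : U.D) : U.ev x d = x d := rfl

instance : CompleteSpace U.D := by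
  unfold D
  exact (StarSubalgebra.isClosed_topologicalClosure _).completeSpace_coe

/-- characters as continuous linear functionals -/
noncomputable def toCLM (x : U.X) : U.D →L[ℂ] ℂ :=
  AlgHom.toContinuousLinearMap (show U.D →ₐ[ℂ] ℂ from x)

theorem toCLM_apply (x : U.X) (d : U.D) : U.toCLM x d = x d := rfl

theorem X_ext {x y : U.X} (h : ∀ d, x d = y d) : x = y :=
  AlgHom.ext (φ₁ := (show U.D →ₐ[ℂ] ℂ from x)) (φ₂ := (show U.D →ₐ[ℂ] ℂ from y)) h

theorem continuous_eval (d : U.D) : Continuous fun x : U.X => x d :=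
  (continuous_apply d).comp (continuous_induced_dom (f := U.ev))

instance : CompactSpace U.X := by
  let F : characterSpace ℂ U.D → U.X := fun φ => CharacterSpace.equivAlgHom φ
  have hF : Continuous F := by
    rw [continuous_induced_rng]
    apply continuous_pi
    intro d
    exact (WeakDual.eval_continuous d).comp continuous_subtype_val
  have hs : Function.Surjective F := CharacterSpace.equivAlgHom.surjective
  exact hs.compactSpace hF

theorem p_mul_self (n : ℕ) (i : Fin (U.size n)) : U.p n i * U.p n i = U.p n i := by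
  apply Subtype.ext
  show U.e n i i * U.e n i i = U.e n i i
  rw [U.e_mul, if_pos rfl]

theorem p_mul_ne (n : ℕ) {i j : Fin (U.size n)} (h : i ≠ j) : U.p n i * U.p n j = 0 := by
  apply Subtype.ext
  show U.e n i i * U.e n j j = 0
  rw [U.e_mul, if_neg h]

theorem sum_p (n : ℕ) : ∑ i, U.p n i = 1 := by
  apply Subtype.ext
  rw [AddSubmonoidClass.coe_finsetSum]
  exact U.e_one n

theorem apply_p (x : U.X) (n : ℕ) (i : Fin (U.size n)) : x (U.p n i) = 0 ∨ x (U.p n i) = 1 := by
  have h : x (U.p n i) * x (U.p n i) = x (U.p n i) := by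
    rw [← map_mul, U.p_mul_self]
  rcases eq_or_ne (x (U.p n i)) 0 with h0 | h0
  · exact Or.inl h0
  · exact Or.inr (mul_left_cancel₀ h0 (by rw [h, mul_one]))

theorem exists_idx (x : U.X) (n : ℕ) : ∃ i, x (U.p n i) = 1 := by
  by_contra hcon
  push Not at hcon
  have h : ∀ i, x (U.p n i) = 0 := fun i => (U.apply_p x n i).resolve_right (hcon i)
  have h1 : x 1 = 0 := by
    rw [← U.sum_p n, map_sum]
    exact Finset.sum_eq_zero fun i _ => h i
  rw [map_one] at h1
  exact one_ne_zero h1

/-- The index of a character at level `n`. -/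
noncomputable def idx (x : U.X) (n : ℕ) : Fin (U.size n) := (U.exists_idx x n).choose

theorem idx_spec (x : U.X) (n : ℕ) : x (U.p n (U.idx x n)) = 1 := (U.exists_idx x n).choose_spec

theorem idx_eq {x : U.X} {n : ℕ} {i : Fin (U.size n)} (h : x (U.p n i) ≠ 0) : U.idx x n = i := by
  by_contra hne
  have h1 := U.idx_spec x n
  have h2 : x (U.p n (U.idx x n)) * x (U.p n i) = 0 := by
    rw [← map_mul, U.p_mul_ne n hne, map_zero]
  rw [h1, one_mul] at h2
  exact h h2

theorem apply_p_eq (x : U.X) (n : ℕ) (i : Fin (U.size n)) :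
    x (U.p n i) = if U.idx x n = i then 1 else 0 := by
  split_ifs with h
  · rw [← h, U.idx_spec]
  · by_contra h1
    exact h (U.idx_eq h1)

theorem nontrivial_of (x : U.X) : Nontrivial A := by
  by_contra h
  rw [not_nontrivial_iff_subsingleton] at h
  have h1 : (1 : U.D) = 0 := Subtype.ext (Subsingleton.elim _ _)
  have h2 : x 1 = 0 := by rw [h1, map_zero]
  rw [map_one] at h2
  exact one_ne_zero h2

theorem ext_D [Nontrivial A] (n : ℕ) {f g : U.D →L[ℂ] ℂ}
    (h : ∀ m, n ≤ m → ∀ i, f (U.p m i) = g (U.p m i)) : f = g := by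
  refine ContinuousLinearMap.ext_on (U.dense_span n) ?_
  rintro b ⟨m, hm, i, rfl⟩
  exact h m hm i

theorem ext_idx {x y : U.X} (h : ∀ n, U.idx x n = U.idx y n) : x = y := by
  have := U.nontrivial_of x
  have h1 : U.toCLM x = U.toCLM y := by
    apply U.ext_D 0
    intro m _ i
    show x (U.p m i) = y (U.p m i)
    rw [U.apply_p_eq, U.apply_p_eq, h m]
  apply U.X_ext
  intro d
  exact congrArg (fun f : U.D →L[ℂ] ℂ => f d) h1

theorem isOpen_idx (n : ℕ) (i : Fin (U.size n)) : IsOpen {x : U.X | U.idx x n = i} := by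
  have : {x : U.X | U.idx x n = i} = {x : U.X | x (U.p n i) ≠ 0} := by
    ext x
    constructor
    · intro h
      have h : U.idx x n = i := h
      show x (U.p n i) ≠ 0
      rw [← h, U.idx_spec]
      exact one_ne_zero
    · intro h
      exact U.idx_eq h
  rw [this]
  exact isOpen_ne_fun (U.continuous_eval _) continuous_const

theorem isClosedEmbedding_idx : IsClosedEmbedding (fun x : U.X => fun n => U.idx x n) := by
  have hc : Continuous (fun x : U.X => fun n => U.idx x n) := by
    apply continuous_pi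
    intro n
    rw [continuous_discrete_rng]
    intro i
    exact U.isOpen_idx n i
  apply hc.isClosedEmbedding
  intro x y h
  apply U.ext_idx
  intro n
  exact congrFun h n

theorem idx_mono {x y : U.X} {m n : ℕ} (hmn : m ≤ n) (h : U.idx x n = U.idx y n) :
    U.idx x m = U.idx y m := by
  have := U.nontrivial_of x
  have key : ∀ z : U.X, U.idx z n = U.idx x n →
      z (U.p m (U.idx x m)) = 1 := by
    intro z hz
    have h1 : U.e m (U.idx x m) (U.idx x m) * U.e n (U.idx x n) (U.idx x n) ≠ 0 := by
      intro h0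
      have h2 : U.p m (U.idx x m) * U.p n (U.idx x n) = 0 := Subtype.ext h0
      have h3 : x (U.p m (U.idx x m)) * x (U.p n (U.idx x n)) = 0 := by
        rw [← map_mul, h2, map_zero]
      rw [U.idx_spec, U.idx_spec] at h3
      norm_num at h3
    obtain ⟨h2, -⟩ := (U.refine_e m n hmn _ _).resolve_left h1
    have h3 : U.p m (U.idx x m) * U.p n (U.idx x n) = U.p n (U.idx x n) := Subtype.ext h2
    have h4 : z (U.p m (U.idx x m)) * z (U.p n (U.idx x n)) = z (U.p n (U.idx x n)) := by
      rw [← map_mul, h3]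
    rw [← hz, U.idx_spec, mul_one] at h4
    exact h4
  have h1 := key y h.symm
  exact (U.idx_eq (by rw [h1]; exact one_ne_zero)).symm

/-- Every nonempty open set contains a cylinder set. -/
theorem exists_cylinder {O : Set U.X} (hO : IsOpen O) {y : U.X} (hy : y ∈ O) :
    ∃ n, ∀ z : U.X, U.idx z n = U.idx y n → z ∈ O := by
  obtain ⟨O', hO', rfl⟩ := U.isClosedEmbedding_idx.isInducing.isOpen_iff.1 hO
  rw [isOpen_pi_iff] at hO'
  obtain ⟨I, u, hu, hI⟩ := hO' _ hy
  refine ⟨I.sup id, ?_⟩
  intro z hz
  apply hI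
  intro m hm
  have hm' : m ≤ I.sup id := Finset.le_sup (f := id) hm
  have := U.idx_mono hm' hz
  show U.idx z m ∈ u m
  rw [this]
  exact (hu m hm).2

/-- conjugation by a matrix unit preserves the masa. -/
theorem conj_mem [Nontrivial A] (n : ℕ) (i j : Fin (U.size n)) (d : U.D) :
    star (U.e n i j) * (d : A) * U.e n i j ∈ U.D := by
  have hclosed : IsClosed {d : U.D | star (U.e n i j) * (d : A) * U.e n i j ∈ U.D} := by
    have h1 : IsClosed (U.D : Set A) := StarSubalgebra.isClosed_topologicalClosure _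
    have h2 : Continuous (fun d : U.D => star (U.e n i j) * (d : A) * U.e n i j) := by
      fun_prop
    exact h1.preimage h2
  have hsub : (Submodule.span ℂ {b : U.D | ∃ m, n ≤ m ∧ ∃ i, b = U.p m i} : Set U.D) ⊆
      {d : U.D | star (U.e n i j) * (d : A) * U.e n i j ∈ U.D} := by
    intro b hb
    induction hb using Submodule.span_induction with
    | mem x hx =>
      obtain ⟨m, hm, k, rfl⟩ := hx
      show star (U.e n i j) * U.e m k k * U.e n i j ∈ U.D
      rcases U.conj_e n m hm i j k with h | ⟨l, h⟩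
      · rw [h]; exact zero_mem _
      · rw [h]; exact U.e_mem_D m l
    | zero =>
      show star (U.e n i j) * ((0 : U.D) : A) * U.e n i j ∈ U.D
      simp
    | add x y hx hy h1 h2 =>
      show star (U.e n i j) * ((x + y : U.D) : A) * U.e n i j ∈ U.D
      have : star (U.e n i j) * ((x + y : U.D) : A) * U.e n i j =
          star (U.e n i j) * (x : A) * U.e n i j + star (U.e n i j) * (y : A) * U.e n i j := by
        simp [mul_add, add_mul]
      rw [this]
      exact add_mem h1 h2
    | smul r x hx h =>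
      show star (U.e n i j) * ((r • x : U.D) : A) * U.e n i j ∈ U.D
      have : star (U.e n i j) * ((r • x : U.D) : A) * U.e n i j =
          r • (star (U.e n i j) * (x : A) * U.e n i j) := by
        simp [mul_smul_comm, smul_mul_assoc]
      rw [this]
      exact SMulMemClass.smul_mem r h
  have := (U.dense_span n).closure_eq ▸ closure_minimal hsub hclosed
  exact this (Set.mem_univ d)

/-- elements of the masa commute with diagonal matrix units -/
theorem comm_p [Nontrivial A] (n : ℕ) (i : Fin (U.size n)) (d : U.D) :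
    (d : A) * U.e n i i = U.e n i i * (d : A) := by
  have hclosed : IsClosed {d : U.D | (d : A) * U.e n i i = U.e n i i * (d : A)} := by
    apply isClosed_eq <;> fun_prop
  have hsub : (Submodule.span ℂ {b : U.D | ∃ m, n ≤ m ∧ ∃ i, b = U.p m i} : Set U.D) ⊆
      {d : U.D | (d : A) * U.e n i i = U.e n i i * (d : A)} := by
    intro b hb
    induction hb using Submodule.span_induction with
    | mem x hx =>
      obtain ⟨m, hm, k, rfl⟩ := hx
      show U.e m k k * U.e n i i = U.e n i i * U.e m k k
      rcases U.refine_e n m hm i k with h | ⟨h, -⟩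
      · have : U.e m k k * U.e n i i = star (U.e n i i * U.e m k k) := by
          rw [star_mul, U.e_star, U.e_star]
        rw [this, h, star_zero]
      · have : U.e m k k * U.e n i i = star (U.e n i i * U.e m k k) := by
          rw [star_mul, U.e_star, U.e_star]
        rw [this, h, U.e_star]
    | zero => simp
    | add x y hx hy h1 h2 =>
      have h1 : (x : A) * U.e n i i = U.e n i i * (x : A) := h1
      have h2 : (y : A) * U.e n i i = U.e n i i * (y : A) := h2
      show ((x + y : U.D) : A) * U.e n i i = U.e n i i * ((x + y : U.D) : A)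
      simp [mul_add, add_mul, h1, h2]
    | smul r x hx h =>
      have h : (x : A) * U.e n i i = U.e n i i * (x : A) := h
      show ((r • x : U.D) : A) * U.e n i i = U.e n i i * ((r • x : U.D) : A)
      simp [h]
  have := (U.dense_span n).closure_eq ▸ closure_minimal hsub hclosed
  exact this (Set.mem_univ d)

/-- conjugation by a matrix unit on the masa -/
noncomputable def ad [Nontrivial A] (n : ℕ) (i j : Fin (U.size n)) : U.D →L[ℂ] U.D where
  toFun d := ⟨star (U.e n i j) * (d : A) * U.e n i j, U.conj_mem n i j d⟩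
  map_add' x y := by
    apply Subtype.ext
    simp [mul_add, add_mul]
  map_smul' r x := by
    apply Subtype.ext
    simp [mul_smul_comm, smul_mul_assoc]
  cont := by
    apply Continuous.subtype_mk
    fun_prop

theorem coe_ad [Nontrivial A] (n : ℕ) (i j : Fin (U.size n)) (d : U.D) :
    (U.ad n i j d : A) = star (U.e n i j) * (d : A) * U.e n i j := rfl

theorem ad_one [Nontrivial A] (n : ℕ) (i j : Fin (U.size n)) : U.ad n i j 1 = U.p n j := by
  apply Subtype.ext
  rw [coe_ad]
  show star (U.e n i j) * 1 * U.e n i j = U.e n j j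
  rw [mul_one, U.e_star, U.e_mul, if_pos rfl]

theorem ad_mul [Nontrivial A] (n : ℕ) (i j : Fin (U.size n)) (d d' : U.D) :
    U.ad n i j (d * d') = U.ad n i j d * U.ad n i j d' := by
  apply Subtype.ext
  show star (U.e n i j) * ((d : A) * d') * U.e n i j =
    (star (U.e n i j) * (d : A) * U.e n i j) * (star (U.e n i j) * (d' : A) * U.e n i j)
  have h1 : U.e n i j = U.e n i i * U.e n i j := by rw [U.e_mul, if_pos rfl]
  have h2 : U.e n i j * star (U.e n i j) = U.e n i i := by rw [U.e_star, U.e_mul, if_pos rfl]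
  calc star (U.e n i j) * ((d : A) * d') * U.e n i j
      = star (U.e n i j) * ((d : A) * d') * (U.e n i i * U.e n i j) := by rw [← h1]
    _ = star (U.e n i j) * (d : A) * ((d' : A) * U.e n i i) * U.e n i j := by
        simp only [mul_assoc]
    _ = star (U.e n i j) * (d : A) * (U.e n i i * (d' : A)) * U.e n i j := by rw [U.comm_p]
    _ = star (U.e n i j) * (d : A) * ((U.e n i j * star (U.e n i j)) * (d' : A)) * U.e n i j := by
        rw [h2]
    _ = _ := by simp only [mul_assoc]

theorem mem_graph_iff [Nontrivial A] (n : ℕ) (i j : Fin (U.size n)) (x y : U.X) :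
    (x, y) ∈ U.graph (U.e n i j) ↔ ∀ d, x d = y (U.ad n i j d) := by
  constructor
  · intro h d
    exact h d (U.ad n i j d) rfl
  · intro h d d' hd
    have : d' = U.ad n i j d := Subtype.ext hd
    rw [this]
    exact h d

/-- The translate of a character by a matrix unit. -/
noncomputable def act [Nontrivial A] (n : ℕ) (i j : Fin (U.size n)) (y : U.X)
    (hy : y (U.p n j) = 1) : U.X :=
  AlgHom.ofLinearMap ((U.toCLM y).comp (U.ad n i j)).toLinearMap
    (by
      show y (U.ad n i j 1) = 1
      rw [U.ad_one, hy])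
    (by
      intro d d'
      show y (U.ad n i j (d * d')) = y (U.ad n i j d) * y (U.ad n i j d')
      rw [U.ad_mul, map_mul])

theorem act_apply [Nontrivial A] (n : ℕ) (i j : Fin (U.size n)) (y : U.X)
    (hy : y (U.p n j) = 1) (d : U.D) : U.act n i j y hy d = y (U.ad n i j d) := rfl

theorem graph_p [Nontrivial A] {n : ℕ} {i j : Fin (U.size n)} {x y : U.X}
    (h : (x, y) ∈ U.graph (U.e n i j)) : y (U.p n j) = 1 := by
  rw [mem_graph_iff] at h
  have := h 1
  rw [U.ad_one, map_one] at this
  exact this.symm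

/-- compare conjugation by `v` and by `v p` at a character with `y p = 1` -/
theorem apply_ad_eq [Nontrivial A] {n m : ℕ} {i j : Fin (U.size n)} {k l : Fin (U.size m)}
    {n' : ℕ} {q : Fin (U.size n')}
    (h : U.e n i j * U.e n' q q = U.e m k l) {y : U.X} (hy : y (U.p n' q) = 1) (d : U.D) :
    y (U.ad m k l d) = y (U.ad n i j d) := by
  have h1 : U.ad m k l d = U.p n' q * U.ad n i j d * U.p n' q := by
    apply Subtype.ext
    show star (U.e m k l) * (d : A) * U.e m k l =
      U.e n' q q * (star (U.e n i j) * (d : A) * U.e n i j) * U.e n' q q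
    rw [← h, star_mul, U.e_star n' q q]
    simp only [mul_assoc]
  rw [h1, map_mul, map_mul, hy, one_mul, mul_one]

theorem idx_of_graph [Nontrivial A] {n : ℕ} {i j : Fin (U.size n)} {x y : U.X}
    (h : (x, y) ∈ U.graph (U.e n i j)) : U.idx x n = i ∧ U.idx y n = j := by
  constructor
  · apply U.idx_eq
    rw [(U.mem_graph_iff n i j x y).1 h]
    have : U.ad n i j (U.p n i) = U.p n j := by
      apply Subtype.ext
      show star (U.e n i j) * U.e n i i * U.e n i j = U.e n j j
      rw [U.e_star, U.e_mul, if_pos rfl, U.e_mul, if_pos rfl]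
    rw [this, U.graph_p h]
    exact one_ne_zero
  · apply U.idx_eq
    rw [U.graph_p h]
    exact one_ne_zero

/-- refinement of a pair in the graph of a matrix unit -/
theorem graph_refine [Nontrivial A] {n m : ℕ} (hnm : n ≤ m) {i j : Fin (U.size n)} {x y : U.X}
    (h : (x, y) ∈ U.graph (U.e n i j)) :
    U.e n i j * U.e m (U.idx y m) (U.idx y m) = U.e m (U.idx x m) (U.idx y m) ∧
      (x, y) ∈ U.graph (U.e m (U.idx x m) (U.idx y m)) := by
  have h1 : U.e n j j * U.e m (U.idx y m) (U.idx y m) ≠ 0 := by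
    intro h0
    have h2 : U.p n j * U.p m (U.idx y m) = 0 := Subtype.ext h0
    have h3 : y (U.p n j) * y (U.p m (U.idx y m)) = 0 := by
      rw [← map_mul, h2, map_zero]
    rw [U.idx_spec, U.graph_p h] at h3
    norm_num at h3
  obtain ⟨-, h2⟩ := (U.refine_e n m hnm _ _).resolve_left h1
  obtain ⟨k, hk⟩ := h2 i
  have h3 : (x, y) ∈ U.graph (U.e m k (U.idx y m)) := by
    rw [mem_graph_iff]
    intro d
    rw [U.apply_ad_eq hk (U.idx_spec y m), (U.mem_graph_iff n i j x y).1 h]
  have h4 := (U.idx_of_graph h3).1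
  rw [h4]
  exact ⟨hk, h3⟩

theorem rel_refl (x : U.X) : U.Rel x x := by
  have := U.nontrivial_of x
  refine ⟨0, U.idx x 0, U.idx x 0, ?_⟩
  rw [mem_graph_iff]
  intro d
  have : U.ad 0 (U.idx x 0) (U.idx x 0) d = U.p 0 (U.idx x 0) * d * U.p 0 (U.idx x 0) := by
    apply Subtype.ext
    show star (U.e 0 (U.idx x 0) (U.idx x 0)) * (d : A) * U.e 0 (U.idx x 0) (U.idx x 0) = _
    rw [U.e_star]
    rfl
  rw [this, map_mul, map_mul, U.idx_spec]
  ring

theorem rel_symm {x y : U.X} (h : U.Rel x y) : U.Rel y x := by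
  have := U.nontrivial_of x
  obtain ⟨n, i, j, h⟩ := h
  refine ⟨n, j, i, ?_⟩
  rw [mem_graph_iff]
  intro d
  rw [(U.mem_graph_iff n i j x y).1 h]
  have : U.ad n i j (U.ad n j i d) = U.p n j * d * U.p n j := by
    apply Subtype.ext
    show star (U.e n i j) * (star (U.e n j i) * (d : A) * U.e n j i) * U.e n i j =
      U.e n j j * (d : A) * U.e n j j
    rw [U.e_star, U.e_star]
    have : U.e n j i * (U.e n i j * (d : A) * U.e n j i) * U.e n i j =
      (U.e n j i * U.e n i j) * (d : A) * (U.e n j i * U.e n i j) := by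
      simp only [mul_assoc]
    rw [this, U.e_mul, if_pos rfl]
  rw [this, map_mul, map_mul, U.graph_p h]
  ring

theorem rel_trans {x y z : U.X} (h : U.Rel x y) (h' : U.Rel y z) : U.Rel x z := by
  have := U.nontrivial_of x
  obtain ⟨n, i, j, h⟩ := h
  obtain ⟨n', i', j', h'⟩ := h'
  set m := max n n'
  have h1 := (U.graph_refine (le_max_left n n') h).2
  have h2 := (U.graph_refine (le_max_right n n') h').2
  refine ⟨m, U.idx x m, U.idx z m, ?_⟩
  rw [mem_graph_iff]
  intro d
  rw [(U.mem_graph_iff _ _ _ x y).1 h1, (U.mem_graph_iff _ _ _ y z).1 h2]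
  congr 1
  apply Subtype.ext
  show star (U.e m (U.idx y m) (U.idx z m)) * (star (U.e m (U.idx x m) (U.idx y m)) * (d : A) *
    U.e m (U.idx x m) (U.idx y m)) * U.e m (U.idx y m) (U.idx z m) =
    star (U.e m (U.idx x m) (U.idx z m)) * (d : A) * U.e m (U.idx x m) (U.idx z m)
  have e1 : U.e m (U.idx x m) (U.idx z m) =
      U.e m (U.idx x m) (U.idx y m) * U.e m (U.idx y m) (U.idx z m) := by
    rw [U.e_mul, if_pos rfl]
  rw [e1, star_mul]
  simp only [mul_assoc]

theorem rel_equiv : Equivalence U.Rel := ⟨U.rel_refl, U.rel_symm, U.rel_trans⟩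

theorem dense_orbit (x : U.X) : Dense {z | U.Rel z x} := by
  have := U.nontrivial_of x
  rw [dense_iff_inter_open]
  rintro O hO ⟨y, hy⟩
  obtain ⟨n, hn⟩ := U.exists_cylinder hO hy
  set z := U.act n (U.idx y n) (U.idx x n) x (U.idx_spec x n) with hz
  have h1 : (z, x) ∈ U.graph (U.e n (U.idx y n) (U.idx x n)) := by
    rw [mem_graph_iff]
    intro d
    rfl
  exact ⟨z, hn z (U.idx_of_graph h1).1, n, _, _, h1⟩

/-- Extension of a function on the groupoid by zero. -/
noncomputable def extend (c : U.G → ℝ) (x y : U.X) : ℝ := by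
  classical
  exact if h : U.Rel x y then c ⟨(x, y), h⟩ else 0

theorem extend_eq (c : U.G → ℝ) {x y : U.X} (h : U.Rel x y) :
    U.extend c x y = c ⟨(x, y), h⟩ := by
  unfold extend
  rw [dif_pos h]

/-- A pair as an element of the groupoid. -/
def pair (x y : U.X) (h : U.Rel x y) : U.G := ⟨(x, y), h⟩

theorem tendsto_X {F : Filter U.X} {s : U.X → U.X} {z : U.X}
    (h : ∀ d, Tendsto (fun x => s x d) F (𝓝 (z d))) : Tendsto s F (𝓝 z) := by
  rw [nhds_induced, tendsto_comap_iff, tendsto_pi_nhds]
  intro d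
  exact h d

theorem hasSections {c : U.G → ℝ} (hc : Continuous c) : HasSections U.Rel (U.extend c) := by
  classical
  intro z x hzx
  have := U.nontrivial_of x
  obtain ⟨n, i, j, h⟩ := hzx
  have hxj := U.graph_p h
  set s : U.X → U.X := fun x' => if hx' : x' (U.p n j) = 1 then U.act n i j x' hx' else x' with hs
  have hsx : s x = z := by
    simp only [hs]
    rw [dif_pos hxj]
    apply U.X_ext
    intro d
    rw [act_apply, (U.mem_graph_iff _ _ _ _ _).1 h]
  have hev : ∀ᶠ x' in 𝓝 x, x' (U.p n j) = 1 := by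
    have h1 : {x' : U.X | U.idx x' n = j} ∈ 𝓝 x := (U.isOpen_idx n j).mem_nhds
      (U.idx_of_graph h).2
    filter_upwards [h1] with x' hx'
    have hx' : U.idx x' n = j := hx'
    rw [← hx', U.idx_spec]
  have hg : ∀ᶠ x' in 𝓝 x, (s x', x') ∈ U.graph (U.e n i j) := by
    filter_upwards [hev] with x' hx'
    rw [mem_graph_iff]
    intro d
    simp only [hs]
    rw [dif_pos hx']
    rfl
  have hR : ∀ᶠ x' in 𝓝 x, U.Rel (s x') x' := by
    filter_upwards [hg] with x' hx'
    exact ⟨n, i, j, hx'⟩
  refine ⟨s, hsx, ?_, hR, ?_⟩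
  · show Tendsto s (𝓝 x) (𝓝 (s x))
    apply U.tendsto_X
    intro d
    have h1 : Tendsto (fun x' : U.X => x' (U.ad n i j d)) (𝓝 x) (𝓝 (x (U.ad n i j d))) :=
      (U.continuous_eval _).continuousAt
    have h2 : s x d = x (U.ad n i j d) := by
      rw [hsx, (U.mem_graph_iff _ _ _ _ _).1 h]
    rw [h2]
    refine h1.congr' ?_
    filter_upwards [hg] with x' hx'
    rw [(U.mem_graph_iff _ _ _ _ _).1 hx']
  · -- the section into the groupoid
    set g : U.G := U.pair z x ⟨n, i, j, h⟩ with hgdef
    set σ : X U → U.G := fun x' => if hx' : U.Rel (s x') x' then U.pair (s x') x' hx' else g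
      with hσ
    have hσpos : ∀ x' (hx' : U.Rel (s x') x'), σ x' = U.pair (s x') x' hx' :=
      fun x' hx' => dif_pos hx'
    have hσt : Tendsto σ (𝓝 x) (𝓝 g) := by
      rw [TopologicalSpace.tendsto_nhds_generateFrom_iff]
      rintro O ⟨m, k, l, rfl⟩ hgO
      have hzx' : (z, x) ∈ U.graph (U.e m k l) := hgO
      obtain ⟨ik, il⟩ := U.idx_of_graph hzx'
      obtain ⟨ii, ij⟩ := U.idx_of_graph h
      have hσmem : ∀ᶠ x' in 𝓝 x, (s x', x') ∈ U.graph (U.e m k l) := by
        rcases le_total n m with hnm | hmn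
        · have h1 := (U.graph_refine hnm h).1
          rw [ik, il] at h1
          have h2 : {x' : U.X | U.idx x' m = l} ∈ 𝓝 x := (U.isOpen_idx m l).mem_nhds il
          filter_upwards [h2, hg] with x' hx' hgx'
          have hx' : U.idx x' m = l := hx'
          have h3 : x' (U.p m l) = 1 := by rw [← hx', U.idx_spec]
          rw [mem_graph_iff]
          intro d
          rw [(U.mem_graph_iff _ _ _ _ _).1 hgx', U.apply_ad_eq h1 h3]
        · have h1 := (U.graph_refine hmn hzx').1
          rw [ii, ij] at h1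
          filter_upwards [hev, hg] with x' hx' hgx'
          rw [mem_graph_iff]
          intro d
          rw [(U.mem_graph_iff _ _ _ _ _).1 hgx', U.apply_ad_eq h1 hx']
      filter_upwards [hσmem, hR] with x' h1 h2
      show (σ x').1 ∈ U.graph (U.e m k l)
      rw [hσpos x' h2]
      exact h1
    have hct : Tendsto (fun x' => c (σ x')) (𝓝 x) (𝓝 (c g)) := (hc.tendsto g).comp hσt
    have h3 : U.extend c (s x) x = c g := by
      have : U.Rel (s x) x := hR.self_of_nhds
      rw [U.extend_eq c this]
      congr 1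
      apply Subtype.ext
      simp only [hgdef, hsx, pair]
    show Tendsto (fun x' => U.extend c (s x') x') (𝓝 x) (𝓝 (U.extend c (s x) x))
    rw [h3]
    refine hct.congr' ?_
    filter_upwards [hR] with x' hx'
    rw [U.extend_eq c hx', hσpos x' hx']
    rfl

theorem extend_add {c : U.G → ℝ} (hc : U.IsCocycle c) (x y z : U.X) (hxy : U.Rel x y)
    (hyz : U.Rel y z) : U.extend c x y + U.extend c y z = U.extend c x z := by
  rw [U.extend_eq c hxy, U.extend_eq c hyz, U.extend_eq c (U.rel_trans hxy hyz)]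
  exact hc.add x y z hxy hyz _

end UHF

/-- If a TAF algebra admits a bounded cocycle, then all cocycles admitted by it are bounded. -/
theorem TAF.isBdd_of_isBdd {U : UHF A} (𝒯 : TAF U) {c c' : U.G → ℝ} (hc : 𝒯.Admits c)
    (hc' : 𝒯.Admits c') (hb : U.IsBdd c') : U.IsBdd c := by
  obtain ⟨K, hK⟩ := hb
  obtain ⟨M, hM⟩ := bounded_of_same_sign (R := U.Rel) (c := U.extend c) (c' := U.extend c')
    U.rel_equiv U.dense_orbit (K := K)
    (fun x y h => by rw [U.extend_eq c' h]; exact hK _)
    (U.extend_add hc.1) (U.extend_add hc'.1) (U.hasSections hc.1.continuous)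
    (U.hasSections hc'.1.continuous)
    (fun x y h => by
      rw [U.extend_eq c h, U.extend_eq c' h]
      have h1 : (⟨(x, y), h⟩ : U.G) ∈ 𝒯.P ↔ 0 ≤ c ⟨(x, y), h⟩ := by rw [hc.2]; rfl
      have h2 : (⟨(x, y), h⟩ : U.G) ∈ 𝒯.P ↔ 0 ≤ c' ⟨(x, y), h⟩ := by rw [hc'.2]; rfl
      rw [← h1, ← h2])
  refine ⟨M, ?_⟩
  rintro ⟨⟨x, y⟩, h⟩
  have := hM x y h
  rwa [U.extend_eq c h] at this

end Q88.Tri
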