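import Mathlib

/-!
# Triangular AF subalgebras of UHF algebras and their cocycles

* `UHF A` : the C*-algebra `A` is presented as a UHF algebra, i.e. it is the closure of an
  increasing sequence of unital full matrix subalgebras, given by systems of matrix units such that
  each matrix unit of a level is a sum of matrix units of the next level.
* `UHF.D` : the masa generated by the diagonal matrix units; `UHF.X` : its Gelfand spectrum.
* `UHF.Rel` : the AF equivalence relation on `UHF.X`; `UHF.G` : the same relation as a groupoid,
  i.e. as a set of pairs, with the etale topology generated by the graphs of the matrix units.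
* `TAF U` : an increasing sequence of triangular subalgebras of the levels; `TAF.alg` is the TAF
  algebra itself and `TAF.P` is its spectrum.
* `TAF.Admits c` : `c` is a (continuous, real) cocycle and the spectrum is the set where `c ≥ 0`.
-/

open WeakDual

namespace Q88.Tri

noncomputable section

/-- A presentation of the C*-algebra `A` as a UHF algebra: for every `n` a system `e n i j` of
matrix units of a full matrix algebra of size `size n` (with the unit of `A`), every matrix unit of
level `n` is a sum of matrix units of level `n + 1`, and the union of the levels is dense. -/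
structure UHF (A : Type*) [CStarAlgebra A] where
  /-- the sizes of the matrix algebras -/
  size : ℕ → ℕ
  /-- the matrix units -/
  e : (n : ℕ) → Fin (size n) → Fin (size n) → A
  e_mul : ∀ n i j k l, e n i j * e n k l = if j = k then e n i l else 0
  e_star : ∀ n i j, star (e n i j) = e n j i
  e_one : ∀ n, ∑ i, e n i i = 1
  e_succ : ∀ n i j, ∃ S : Finset (Fin (size (n + 1)) × Fin (size (n + 1))),
    e n i j = ∑ p ∈ S, e (n + 1) p.1 p.2
  dense : Dense {a : A | ∃ n, a ∈ Submodule.span ℂ {b | ∃ i j, b = e n i j}}

variable {A : Type*} [CStarAlgebra A]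

namespace UHF

variable (U : UHF A)

/-- The `n`-th full matrix subalgebra (as a linear subspace). -/
def level (n : ℕ) : Submodule ℂ A := Submodule.span ℂ {b | ∃ i j, b = U.e n i j}

/-- The diagonal of the `n`-th full matrix subalgebra. -/
def diag (n : ℕ) : Submodule ℂ A := Submodule.span ℂ {b | ∃ i, b = U.e n i i}

/-- The canonical masa of `A`: the closed `*`-subalgebra generated by all the diagonals. -/
def D : StarSubalgebra ℂ A := (StarAlgebra.adjoin ℂ {a | ∃ n i, a = U.e n i i}).topologicalClosure

/-- The Gelfand spectrum of the masa: all unital algebra homomorphisms from the masa to `ℂ`. -/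
def X : Type _ := U.D →ₐ[ℂ] ℂ

/-- The value of a character at an element of the masa. -/
def ev (x : U.X) : U.D → ℂ := (show U.D →ₐ[ℂ] ℂ from x)

/-- The topology of pointwise convergence on the spectrum. -/
instance : TopologicalSpace U.X := TopologicalSpace.induced U.ev inferInstance

/-- The graph of `v` (a matrix unit, or more generally a partial isometry normalizing the masa):
all pairs `(x, y)` with `x(d) = y(v* d v)` for all `d` in the masa (for `d = 1` this contains
`y(v* v) = 1`). -/
def graph (v : A) : Set (U.X × U.X) :=
  {p | ∀ d d' : U.D, (d' : A) = star v * d * v → U.ev p.1 d = U.ev p.2 d'}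

/-- The AF equivalence relation of the pair `(A, D)`. -/
def Rel (x y : U.X) : Prop := ∃ n i j, (x, y) ∈ U.graph (U.e n i j)

/-- The AF equivalence relation as a groupoid (a set of pairs). -/
def G : Type _ := {p : U.X × U.X // U.Rel p.1 p.2}

/-- The usual etale topology of the AF groupoid: it is generated by the graphs of the matrix
units. -/
instance : TopologicalSpace U.G :=
  TopologicalSpace.generateFrom
    {O | ∃ n i j, O = {g : U.G | g.1 ∈ U.graph (U.e n i j)}}

/-- A (continuous real) cocycle on the AF groupoid. -/
structure IsCocycle (c : U.G → ℝ) : Prop where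
  continuous : Continuous c
  add : ∀ (x y z : U.X) (hxy : U.Rel x y) (hyz : U.Rel y z) (hxz : U.Rel x z),
    c ⟨(x, y), hxy⟩ + c ⟨(y, z), hyz⟩ = c ⟨(x, z), hxz⟩

/-- Bounded cocycles. -/
def IsBdd (c : U.G → ℝ) : Prop := ∃ K : ℝ, ∀ g, |c g| ≤ K

end UHF

/-- A presentation of a triangular AF subalgebra: an increasing sequence of subalgebras `T n` of the
levels such that `T n ∩ (T n)*` is the diagonal of level `n`. -/
structure TAF (U : UHF A) where
  /-- the triangular subalgebra of level `n` -/
  T : ℕ → Subalgebra ℂ A
  T_le : ∀ n a, a ∈ T n → a ∈ U.level n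
  T_mono : ∀ n, T n ≤ T (n + 1)
  T_diag : ∀ n a, (a ∈ T n ∧ star a ∈ T n) ↔ a ∈ U.diag n

namespace TAF

variable {U : UHF A} (𝒯 : TAF U)

/-- The TAF algebra: the norm closure of the union of its levels. -/
def alg : Set A := closure {a | ∃ n, a ∈ 𝒯.T n}

/-- The spectrum of the TAF algebra: the pairs that lie in the graph of a matrix unit of the
algebra. -/
def P : Set U.G := {g | ∃ n i j, U.e n i j ∈ 𝒯.alg ∧ g.1 ∈ U.graph (U.e n i j)}

/-- The TAF algebra admits the cocycle `c`. -/
def Admits (c : U.G → ℝ) : Prop := U.IsCocycle c ∧ 𝒯.P = {g | 0 ≤ c g}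

end TAF

end

end Q88.Tri
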