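import Pool.Agent.Q88.TAF.Defs

/-!
Elementary facts on the matrix units of a UHF presentation.
-/

namespace Q88.Tri

open Finset

variable {A : Type*} [CStarAlgebra A]

namespace UHF

variable (U : UHF A)

theorem e_ne [Nontrivial A] (n : ℕ) (i j : Fin (U.size n)) : U.e n i j ≠ 0 := by
  intro h
  have h1 : (1 : A) = 0 := by
    rw [← U.e_one n]
    apply Finset.sum_eq_zero
    intro k _
    have h2 : U.e n k k = U.e n k i * U.e n i j * U.e n j k := by
      rw [U.e_mul, if_pos rfl, U.e_mul, if_pos rfl]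
    rw [h2, h]
    simp
  exact one_ne_zero h1

theorem sum_mul_e (n : ℕ) (S : Finset (Fin (U.size n) × Fin (U.size n))) (l : Fin (U.size n)) :
    (∑ p ∈ S, U.e n p.1 p.2) * U.e n l l =
      ∑ k ∈ Finset.univ.filter (fun k => (k, l) ∈ S), U.e n k l := by
  rw [Finset.sum_mul]
  simp only [U.e_mul]
  rw [← Finset.sum_filter]
  refine Finset.sum_bij' (fun p _ => p.1) (fun k _ => (k, l)) ?_ ?_ ?_ ?_ ?_
  · rintro ⟨a, b⟩ h
    simp only [Finset.mem_filter] at h
    obtain ⟨h1, h2⟩ := h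
    subst h2
    simpa using h1
  · intro k h
    simp only [Finset.mem_filter, Finset.mem_univ, true_and] at h
    simp [h]
  · rintro ⟨a, b⟩ h
    simp only [Finset.mem_filter] at h
    obtain ⟨h1, h2⟩ := h
    subst h2
    rfl
  · intro k h
    rfl
  · rintro ⟨a, b⟩ h
    rfl

theorem star_sum_mul_sum (n : ℕ) (N : Finset (Fin (U.size n))) (l : Fin (U.size n)) :
    star (∑ k ∈ N, U.e n k l) * (∑ k ∈ N, U.e n k l) = (N.card : ℂ) • U.e n l l := by
  rw [star_sum, Finset.sum_mul_sum]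
  have : ∀ i ∈ N, ∑ j ∈ N, star (U.e n i l) * U.e n j l = U.e n l l := by
    intro i hi
    simp only [U.e_star, U.e_mul]
    rw [Finset.sum_ite_eq, if_pos hi]
  rw [Finset.sum_congr rfl this, Finset.sum_const]
  rw [← Nat.cast_smul_eq_nsmul ℂ]

theorem smul_e_inj [Nontrivial A] {n : ℕ} {l : Fin (U.size n)} {s t : ℕ}
    (h : (s : ℂ) • U.e n l l = (t : ℂ) • U.e n l l) : s = t := by
  have h2 : ((s : ℂ) - t) • U.e n l l = 0 := by
    rw [sub_smul, h, sub_self]
  rcases smul_eq_zero.1 h2 with h3 | h3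
  · exact_mod_cast sub_eq_zero.1 h3
  · exact absurd h3 (U.e_ne n l l)

/-- One step of the refinement of matrix units. -/
theorem step [Nontrivial A] (n : ℕ) (j : Fin (U.size n)) (l : Fin (U.size (n + 1))) :
    U.e n j j * U.e (n + 1) l l = 0 ∨
      (U.e n j j * U.e (n + 1) l l = U.e (n + 1) l l ∧
        ∀ i, ∃ k, U.e n i j * U.e (n + 1) l l = U.e (n + 1) k l) := by
  obtain ⟨S, hS⟩ := U.e_succ n j j
  set N := Finset.univ.filter (fun k => (k, l) ∈ S) with hN
  have h1 : U.e n j j * U.e (n + 1) l l = ∑ k ∈ N, U.e (n + 1) k l := by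
    rw [hS, U.sum_mul_e]
  have h2 : U.e (n + 1) l l * (U.e n j j * U.e (n + 1) l l) =
      (((if l ∈ N then 1 else 0 : ℕ)) : ℂ) • U.e (n + 1) l l := by
    rw [h1, Finset.mul_sum]
    simp only [U.e_mul]
    rw [Finset.sum_ite_eq]
    split_ifs <;> simp
  have h3 : star (U.e n j j * U.e (n + 1) l l) * (U.e n j j * U.e (n + 1) l l) =
      (N.card : ℂ) • U.e (n + 1) l l := by
    rw [h1, U.star_sum_mul_sum]
  have h4 : star (U.e n j j * U.e (n + 1) l l) * (U.e n j j * U.e (n + 1) l l) =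
      U.e (n + 1) l l * (U.e n j j * U.e (n + 1) l l) := by
    rw [star_mul, U.e_star, U.e_star]
    rw [mul_assoc, ← mul_assoc (U.e n j j) (U.e n j j), U.e_mul, if_pos rfl]
  have h5 : N.card = if l ∈ N then 1 else 0 := by
    apply U.smul_e_inj (n := n + 1) (l := l)
    rw [← h3, h4, h2]
  by_cases hl : l ∈ N
  · right
    rw [if_pos hl] at h5
    obtain ⟨a, ha⟩ := Finset.card_eq_one.1 h5
    have hla : l = a := by
      rw [ha] at hl
      simpa using hl
    subst hla
    have h6 : U.e n j j * U.e (n + 1) l l = U.e (n + 1) l l := by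
      rw [h1, ha, Finset.sum_singleton]
    refine ⟨h6, ?_⟩
    intro i
    obtain ⟨S', hS'⟩ := U.e_succ n i j
    set N' := Finset.univ.filter (fun k => (k, l) ∈ S') with hN'
    have h7 : U.e n i j * U.e (n + 1) l l = ∑ k ∈ N', U.e (n + 1) k l := by
      rw [hS', U.sum_mul_e]
    have h8 : star (U.e n i j * U.e (n + 1) l l) * (U.e n i j * U.e (n + 1) l l) =
        (N'.card : ℂ) • U.e (n + 1) l l := by
      rw [h7, U.star_sum_mul_sum]
    have h9 : star (U.e n i j * U.e (n + 1) l l) * (U.e n i j * U.e (n + 1) l l) =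
        ((1 : ℕ) : ℂ) • U.e (n + 1) l l := by
      rw [star_mul, U.e_star, U.e_star]
      rw [mul_assoc, ← mul_assoc (U.e n j i) (U.e n i j), U.e_mul, if_pos rfl, h6, U.e_mul,
        if_pos rfl]
      simp
    have h10 : N'.card = 1 := by
      apply U.smul_e_inj (n := n + 1) (l := l)
      rw [← h8, h9]
    obtain ⟨k, hk⟩ := Finset.card_eq_one.1 h10
    exact ⟨k, by rw [h7, hk, Finset.sum_singleton]⟩
  · left
    rw [if_neg hl] at h5
    rw [h1, Finset.card_eq_zero.1 h5, Finset.sum_empty]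

/-- Refinement of matrix units between arbitrary levels. -/
theorem refine_e [Nontrivial A] (n m : ℕ) (hnm : n ≤ m) : ∀ (j : Fin (U.size n))
    (l : Fin (U.size m)),
    U.e n j j * U.e m l l = 0 ∨
      (U.e n j j * U.e m l l = U.e m l l ∧
        ∀ i, ∃ k, U.e n i j * U.e m l l = U.e m k l) := by
  induction m, hnm using Nat.le_induction with
  | base =>
    intro j l
    by_cases h : j = l
    · right
      subst h
      refine ⟨by rw [U.e_mul, if_pos rfl], fun i => ⟨i, by rw [U.e_mul, if_pos rfl]⟩⟩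
    · left
      rw [U.e_mul, if_neg h]
  | succ m hnm ih =>
    intro j l
    have h1 : ∃ l', U.e m l' l' * U.e (m + 1) l l ≠ 0 := by
      by_contra hcon
      push Not at hcon
      have : (1 : A) * U.e (m + 1) l l = 0 := by
        rw [← U.e_one m, Finset.sum_mul]
        exact Finset.sum_eq_zero fun l' _ => hcon l'
      rw [one_mul] at this
      exact U.e_ne _ _ _ this
    obtain ⟨l', hl'⟩ := h1
    obtain ⟨h2, h3⟩ := (U.step m l' l).resolve_left hl'
    have h4 : ∀ i, U.e n i j * U.e (m + 1) l l = U.e n i j * U.e m l' l' * U.e (m + 1) l l := by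
      intro i
      rw [mul_assoc, h2]
    rcases ih j l' with h | ⟨h5, h6⟩
    · left
      rw [h4, h, zero_mul]
    · right
      refine ⟨by rw [h4, h5, h2], ?_⟩
      intro i
      obtain ⟨k', hk'⟩ := h6 i
      obtain ⟨k, hk⟩ := h3 k'
      exact ⟨k, by rw [h4, hk', hk]⟩

/-- Adjoint version. -/
theorem refine_e' [Nontrivial A] (n m : ℕ) (hnm : n ≤ m) (i : Fin (U.size n))
    (k : Fin (U.size m)) :
    U.e m k k * U.e n i i = 0 ∨
      (U.e m k k * U.e n i i = U.e m k k ∧
        ∀ j, ∃ l, U.e m k k * U.e n i j = U.e m k l) := by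
  have hs : ∀ j, U.e m k k * U.e n i j = star (U.e n j i * U.e m k k) := by
    intro j
    rw [star_mul, U.e_star, U.e_star]
  rcases U.refine_e n m hnm i k with h | ⟨h1, h2⟩
  · left
    rw [hs, h, star_zero]
  · right
    refine ⟨by rw [hs, h1, U.e_star], ?_⟩
    intro j
    obtain ⟨l, hl⟩ := h2 j
    exact ⟨l, by rw [hs, hl, U.e_star]⟩

/-- The conjugate of a diagonal matrix unit. -/
theorem conj_e [Nontrivial A] (n m : ℕ) (hnm : n ≤ m) (i j : Fin (U.size n))
    (p : Fin (U.size m)) :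
    star (U.e n i j) * U.e m p p * U.e n i j = 0 ∨
      ∃ k, star (U.e n i j) * U.e m p p * U.e n i j = U.e m k k := by
  have h0 : star (U.e n i j) * U.e m p p * U.e n i j =
      star (U.e m p p * U.e n i j) * (U.e m p p * U.e n i j) := by
    rw [star_mul, U.e_star m p p, mul_assoc, mul_assoc, ← mul_assoc (U.e m p p) (U.e m p p),
      U.e_mul, if_pos rfl]
  rcases U.refine_e' n m hnm i p with h | ⟨h1, h2⟩
  · left
    have : U.e m p p * U.e n i j = U.e m p p * U.e n i i * U.e n i j := by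
      rw [mul_assoc, U.e_mul, if_pos rfl]
    rw [h0, this, h]
    simp
  · right
    obtain ⟨l, hl⟩ := h2 j
    refine ⟨l, ?_⟩
    rw [h0, hl, U.e_star, U.e_mul, if_pos rfl]

theorem diag_mono [Nontrivial A] {n m : ℕ} (h : n ≤ m) : U.diag n ≤ U.diag m := by
  unfold diag
  rw [Submodule.span_le]
  rintro b ⟨i, rfl⟩
  have : U.e n i i = ∑ l, U.e n i i * U.e m l l := by
    rw [← Finset.mul_sum, U.e_one, mul_one]
  rw [this]
  apply Submodule.sum_mem
  intro l _
  rcases U.refine_e n m h i l with h1 | ⟨h1, -⟩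
  · rw [h1]; exact Submodule.zero_mem _
  · rw [h1]; exact Submodule.subset_span ⟨l, rfl⟩

theorem diag_mul {m : ℕ} {a b : A} (ha : a ∈ U.diag m) (hb : b ∈ U.diag m) :
    a * b ∈ U.diag m := by
  unfold diag at *
  induction ha, hb using Submodule.span_induction₂ with
  | mem_mem x y hx hy =>
    obtain ⟨i, rfl⟩ := hx
    obtain ⟨j, rfl⟩ := hy
    rw [U.e_mul]
    split_ifs with h
    · subst h
      exact Submodule.subset_span ⟨i, rfl⟩
    · exact Submodule.zero_mem _
  | zero_left y hy => simp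
  | zero_right x hx => simp
  | add_left x y z hx hy hz h1 h2 => rw [add_mul]; exact Submodule.add_mem _ h1 h2
  | add_right x y z hx hy hz h1 h2 => rw [mul_add]; exact Submodule.add_mem _ h1 h2
  | smul_left r x y hx hy h => rw [smul_mul_assoc]; exact Submodule.smul_mem _ _ h
  | smul_right r x y hx hy h => rw [mul_smul_comm]; exact Submodule.smul_mem _ _ h

theorem diag_star {m : ℕ} {a : A} (ha : a ∈ U.diag m) : star a ∈ U.diag m := by
  unfold diag at *
  induction ha using Submodule.span_induction with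
  | mem x hx =>
    obtain ⟨i, rfl⟩ := hx
    rw [U.e_star]
    exact Submodule.subset_span ⟨i, rfl⟩
  | zero => simp
  | add x y hx hy h1 h2 => rw [star_add]; exact Submodule.add_mem _ h1 h2
  | smul r x hx h => rw [star_smul]; exact Submodule.smul_mem _ _ h

theorem diag_one {m : ℕ} (r : ℂ) : algebraMap ℂ A r ∈ U.diag m := by
  rw [Algebra.algebraMap_eq_smul_one, ← U.e_one m]
  apply Submodule.smul_mem
  apply Submodule.sum_mem
  intro l _
  exact Submodule.subset_span ⟨l, rfl⟩

theorem adjoin_le_diag [Nontrivial A] (n : ℕ) {a : A}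
    (ha : a ∈ StarAlgebra.adjoin ℂ {a | ∃ n i, a = U.e n i i}) :
    ∃ m, n ≤ m ∧ a ∈ U.diag m := by
  induction ha using StarAlgebra.adjoin_induction with
  | mem x hx =>
    obtain ⟨k, i, rfl⟩ := hx
    exact ⟨max n k, le_max_left _ _,
      U.diag_mono (le_max_right n k) (Submodule.subset_span ⟨i, rfl⟩)⟩
  | algebraMap r => exact ⟨n, le_rfl, U.diag_one r⟩
  | add x y _ _ h1 h2 =>
    obtain ⟨m1, h1, h1'⟩ := h1
    obtain ⟨m2, h2, h2'⟩ := h2
    exact ⟨max m1 m2, h1.trans (le_max_left _ _), Submodule.add_mem _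
      (U.diag_mono (le_max_left _ _) h1') (U.diag_mono (le_max_right _ _) h2')⟩
  | mul x y _ _ h1 h2 =>
    obtain ⟨m1, h1, h1'⟩ := h1
    obtain ⟨m2, h2, h2'⟩ := h2
    exact ⟨max m1 m2, h1.trans (le_max_left _ _), U.diag_mul
      (U.diag_mono (le_max_left _ _) h1') (U.diag_mono (le_max_right _ _) h2')⟩
  | star x _ h =>
    obtain ⟨m, h, h'⟩ := h
    exact ⟨m, h, U.diag_star h'⟩

theorem e_mem_D (n : ℕ) (i : Fin (U.size n)) : U.e n i i ∈ U.D := by
  unfold D
  apply StarSubalgebra.le_topologicalClosure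
  exact StarAlgebra.subset_adjoin ℂ _ ⟨n, i, rfl⟩

/-- the diagonal matrix units as elements of the masa -/
noncomputable def p (n : ℕ) (i : Fin (U.size n)) : U.D := ⟨U.e n i i, U.e_mem_D n i⟩

theorem dense_span [Nontrivial A] (n : ℕ) :
    Dense (Submodule.span ℂ {b : U.D | ∃ m, n ≤ m ∧ ∃ i, b = U.p m i} : Set U.D) := by
  intro d
  rw [Topology.IsInducing.subtypeVal.closure_eq_preimage_closure_image]
  have hd : (d : A) ∈ closure ((StarAlgebra.adjoin ℂ {a | ∃ n i, a = U.e n i i} :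
      StarSubalgebra ℂ A) : Set A) := d.2
  refine closure_mono ?_ hd
  intro a ha
  obtain ⟨m, hm, ham⟩ := U.adjoin_le_diag n ha
  unfold diag at ham
  clear ha
  have key : ∃ y : U.D, y ∈ Submodule.span ℂ {b : U.D | ∃ m, n ≤ m ∧ ∃ i, b = U.p m i} ∧
      (y : A) = a := by
    induction ham using Submodule.span_induction with
    | mem x hx =>
      obtain ⟨i, rfl⟩ := hx
      exact ⟨U.p m i, Submodule.subset_span ⟨m, hm, i, rfl⟩, rfl⟩
    | zero => exact ⟨0, Submodule.zero_mem _, rfl⟩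
    | add x y hx hy h1 h2 =>
      obtain ⟨x', h3, h4⟩ := h1
      obtain ⟨y', h5, h6⟩ := h2
      exact ⟨x' + y', Submodule.add_mem _ h3 h5, by rw [← h4, ← h6]; rfl⟩
    | smul r x hx h =>
      obtain ⟨x', h3, h4⟩ := h
      exact ⟨r • x', Submodule.smul_mem _ r h3, by rw [← h4]; rfl⟩
  obtain ⟨y, hy1, hy2⟩ := key
  exact ⟨y, hy1, hy2⟩

end UHF

end Q88.Tri
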